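import Mathlib
import Pool.Agent.Y989.IS.Main

/-!
# MP_199736_pr, Q1: the extremal starting pair does not maximise the total variation distance
for Ising Glauber dynamics

Q1 asks whether for every finite graph, every `β ≥ 0` and every `t ≥ 0` the heat-bath dynamics of
the ferromagnetic Ising model satisfies
`max_{x,y} ‖P^t(x,·) - P^t(y,·)‖_TV = ‖P^t(⊕,·) - P^t(⊖,·)‖_TV`.

This is false: let `G` be the complete graph on `{0,1,2,3,4}` with four further vertices
`5,6,7,8`, each joined to `0` only, and let `x` be minus at `8` and plus elsewhere. For every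
`β ≥ 5` and all sufficiently small `t > 0` the pair `(x, -x)` is strictly better than `(⊕, ⊖)`.
-/

set_option autoImplicit false

namespace Pool.Agent.Results.MP_199736_pr.IsingCounterexample

/-- The numerical value of a spin: `true` is `+1` and `false` is `-1`. -/
def spin (b : Bool) : ℝ := if b then 1 else -1

section Ising

variable {V : Type} [Fintype V] [DecidableEq V] (G : SimpleGraph V) [DecidableRel G.Adj] (β : ℝ)

/-- The Gibbs weight `exp (β ∑_{edges ij} σ_i σ_j)` of the configuration `σ`. (The sum over
ordered pairs counts each edge twice, hence the factor `1/2`.) -/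
noncomputable def weight (σ : V → Bool) : ℝ :=
  Real.exp (β * ((1 / 2) * ∑ i, ∑ j, if G.Adj i j then spin (σ i) * spin (σ j) else 0))

/-- Transition matrix of one heat-bath update at the vertex `v`: the spin at `v` is resampled from
the Gibbs measure conditioned on the spins off `v`, so that a configuration `τ` that agrees with
`σ` off `v` has probability `π(τ) / (π(σ with + at v) + π(σ with - at v))`. -/
noncomputable def heatBath (v : V) : Matrix (V → Bool) (V → Bool) ℝ := fun σ τ =>
  if ∀ u, u ≠ v → τ u = σ u then
    weight G β τ / (weight G β (Function.update σ v true) + weight G β (Function.update σ v false))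
  else 0

/-- The transition kernel `P^t = exp (t ∑_v (K_v - 1))` of the continuous-time dynamics in which
every vertex `v` has an independent Poisson clock of rate one and the update `K_v` is made when
the clock at `v` rings. -/
noncomputable def kernel (t : ℝ) : Matrix (V → Bool) (V → Bool) ℝ :=
  NormedSpace.exp (t • ∑ v, (heatBath G β v - 1))

end Ising

/-- Total variation distance `max_{A ⊆ Ω} |μ(A) - ν(A)|`. -/
noncomputable def tv {Ω : Type} [Fintype Ω] (μ ν : Ω → ℝ) : ℝ :=
  (Finset.univ : Finset (Finset Ω)).sup' ⟨∅, Finset.mem_univ _⟩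
    fun A => |∑ z ∈ A, μ z - ∑ z ∈ A, ν z|

/-- The all-plus configuration. -/
def plus {V : Type} : V → Bool := fun _ => true

/-- The all-minus configuration. -/
def minus {V : Type} : V → Bool := fun _ => false

/-- The assertion of Q1: for every finite simple graph, every `β ≥ 0` and every `t ≥ 0`, the
maximum over `x, y` of `‖P^t(x,·) - P^t(y,·)‖_TV` equals `‖P^t(⊕,·) - P^t(⊖,·)‖_TV`. -/
def Q1Holds : Prop :=
  ∀ (V : Type) [Fintype V] [DecidableEq V] (G : SimpleGraph V) [DecidableRel G.Adj] (β t : ℝ),
    0 ≤ β → 0 ≤ t →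
    IsGreatest {d : ℝ | ∃ x y : V → Bool, d = tv (kernel G β t x) (kernel G β t y)}
      (tv (kernel G β t plus) (kernel G β t minus))

/-- The complete graph on `{0,1,2,3,4}` together with four pendant vertices `5,6,7,8` attached
to the vertex `0`. -/
def G9 : SimpleGraph (Fin 9) where
  Adj i j := i ≠ j ∧ (i.val < 5 ∧ j.val < 5 ∨ i.val = 0 ∨ j.val = 0)
  symm := ⟨fun i j h => ⟨h.1.symm, by
    rcases h.2 with h | h | h
    · exact Or.inl ⟨h.2, h.1⟩
    · exact Or.inr (Or.inr h)
    · exact Or.inr (Or.inl h)⟩⟩
  loopless := ⟨fun i h => h.1 rfl⟩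

instance : DecidableRel G9.Adj := fun i j =>
  inferInstanceAs (Decidable (i ≠ j ∧ (i.val < 5 ∧ j.val < 5 ∨ i.val = 0 ∨ j.val = 0)))

/-- The configuration with a minus at the pendant vertex `8` and plus elsewhere. -/
def oneMinus : Fin 9 → Bool := fun v => decide (v ≠ 8)

/-- The opposite configuration: plus at `8` and minus elsewhere. -/
def onePlus : Fin 9 → Bool := fun v => !oneMinus v

theorem counter (β : ℝ) (hβ : 5 ≤ β) : ∃ t₀ : ℝ, 0 < t₀ ∧ ∀ t : ℝ, 0 < t → t ≤ t₀ →
    tv (kernel G9 β t plus) (kernel G9 β t minus) <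
      tv (kernel G9 β t oneMinus) (kernel G9 β t onePlus) :=
  Pool.Agent.Y989.IS.main β hβ

/-- **Q1 is false.** For the connected graph `G9` on nine vertices, for every `β ≥ 5` and all
sufficiently small times `t > 0`, the total variation distance between the time-`t` laws of the
Glauber dynamics started from `oneMinus` and from its negative `onePlus` is strictly larger than
the one between the laws started from all plus and from all minus. -/
theorem result :
    (G9.Connected ∧ ∀ β : ℝ, 5 ≤ β → ∃ t₀ : ℝ, 0 < t₀ ∧ ∀ t : ℝ, 0 < t → t ≤ t₀ →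
      tv (kernel G9 β t plus) (kernel G9 β t minus) <
        tv (kernel G9 β t oneMinus) (kernel G9 β t onePlus)) ∧ ¬ Q1Holds := by
  refine ⟨⟨⟨fun i j => ?_⟩, counter⟩, fun h => ?_⟩
  · have h0 : ∀ i : Fin 9, G9.Reachable 0 i := by
      intro i
      by_cases hi : i = 0
      · rw [hi]
      · exact SimpleGraph.Adj.reachable ⟨fun e => hi e.symm, Or.inr (Or.inl rfl)⟩
    exact (h0 i).symm.trans (h0 j)
  · obtain ⟨t₀, ht₀, hlt⟩ := counter 5 le_rfl
    have h1 := (h (Fin 9) G9 5 t₀ (by norm_num) ht₀.le).2
      ⟨oneMinus, onePlus, rfl⟩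
    exact absurd (hlt t₀ ht₀ le_rfl) (not_lt.2 h1)

end Pool.Agent.Results.MP_199736_pr.IsingCounterexample
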